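import Pool.Agent.J6H25.CQ.Q3
import Pool.Agent.J6H25.PIT.BB1

/-!
# Explicit hitting sets for arithmetic expressions in which every variable occurs a bounded number
of times

`Ex` is the type of arithmetic expressions (variables `x₀, x₁, …`, rational constants, `+`, `-`,
`×`), `E.poly` the polynomial defined by `E`, `E.occ i` the number of occurrences of the variable
`x i` in `E`, `E.subs` the list of the subexpressions of `E` (`E` included), `E.vlist` the list of
all occurrences of variables.

`Light j k E` (defined in `J6H25/CR/Defs.lean`): for every subexpression `F` of `E` at most `k`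
variables occur more than `j` times in `F` and at least once outside of `F`. For `k = 0` this holds
if every variable occurs at most `j + 1` times in `E`. No multilinearity is assumed, and in general
the number of occurrences of the variables is not bounded.

`layers false E`: the maximal number of blocks of consecutive multiplications on a path of `E` (for
an expression of bounded depth, with sums and products of arbitrarily many arguments, this is at
most the depth).

`hittingSet n r D`: the set of the points with the coordinates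
`∑_{j < r} a_j ∏_{l < n, l ≠ i} (b_j - l)` with integers `0 ≤ a_j, b_j ≤ D`. It has at most
`(D + 1)^(2 r)` elements.

Proof. The generator is the one of Shpilka and Volkovich, with `C` summands for each step of the
rank (`rk`), which is at most `log₂ s + 1` and at most the number of blocks of multiplications plus
one. Suppose that `a` is a point at which no subexpression of smaller rank vanishes (except for those
which are identically zero); let `S` be a minimal set of coordinates in which `a` has to be changed
in order to get a point at which the expression `E` is not zero, and change them in a generic way.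
Then `E` vanishes if some of these coordinates are changed back, and does not vanish if none is. The
rank is defined such that in each product one of the factors contains only subexpressions of smaller
rank; they do not vanish. For suitable coordinates `Y ⊆ S`, as many as one likes if `S` is large, the
values for the subsets of `Y` are then computed by a product of invertible matrices of bounded size,
one matrix for each coordinate; such a function cannot be zero at all nonempty sets and different
from zero at the empty set. So `S` has bounded size.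
-/

set_option autoImplicit false

namespace Pool.Agent.Results.MP_3c5c20_lc.BlackBoxBoundedRead

open Pool.Agent.J6H25.PIT Pool.Agent.J6H25.CR Pool.Agent.J6H25.CQ

/-- The points with the coordinates `∑_{j < r} a_j ∏_{l < n, l ≠ i} (b_j - l)` with integers
`0 ≤ a_j, b_j ≤ D`. -/
noncomputable def hittingSet (n r D : ℕ) : Finset (ℕ → ℤ) :=
  letI := Classical.decEq (ℕ → ℤ)
  (Finset.univ : Finset ((Fin r → Fin (D + 1)) × (Fin r → Fin (D + 1)))).image fun p i =>
    ∑ j, ((p.1 j : ℕ) : ℤ) * ∏ l ∈ (Finset.range n).erase i, (((p.2 j : ℕ) : ℤ) - l)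

theorem card_hittingSet (n r D : ℕ) : (hittingSet n r D).card ≤ (D + 1) ^ (2 * r) := by
  classical
  refine (Finset.card_image_le).trans ?_
  rw [Finset.card_univ, Fintype.card_prod, Fintype.card_fun, Fintype.card_fin, Fintype.card_fin,
    ← pow_add, two_mul]

theorem mem_hittingSet {n r D : ℕ} {f : ℕ → ℕ} (hf : ∀ i, f i < D + 1) :
    ∃ p ∈ hittingSet n r D, ∀ i, ((p i : ℤ) : ℚ) = gen n r (fun i => (f i : ℚ)) i := by
  classical
  refine ⟨_, Finset.mem_image.2 ⟨(fun j => ⟨f (2 * j), hf _⟩, fun j => ⟨f (2 * j + 1), hf _⟩),
    Finset.mem_univ _, rfl⟩, fun i => ?_⟩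
  unfold gen bas
  rw [← Fin.sum_univ_eq_sum_range fun j => (f (2 * j) : ℚ) *
    ∏ l ∈ (Finset.range n).erase i, ((f (2 * j + 1) : ℚ) - l)]
  push_cast
  rfl

theorem hits {n r s : ℕ} {E : Ex} (h : Hit n r E) (hs : E.vlist.length ≤ s) :
    ∃ p ∈ hittingSet n r (s * (n + 1)),
      MvPolynomial.eval (fun i => ((p i : ℤ) : ℚ)) E.poly ≠ 0 := by
  obtain ⟨f, hf, hf'⟩ := h.grid (D := s * (n + 1) + 1)
    (Nat.lt_succ_of_le (Nat.mul_le_mul_right _ hs))
  obtain ⟨p, hp, hp'⟩ := mem_hittingSet (n := n) (r := r) (D := s * (n + 1)) hf
  refine ⟨p, hp, ?_⟩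
  rw [Ex.eval_poly]
  rwa [show (fun i => ((p i : ℤ) : ℚ)) = gen n r (fun i => (f i : ℚ)) from funext hp']

theorem rk_le_of {s d : ℕ} {E : Ex} (hs : E.vlist.length ≤ s)
    (hd : Nat.log 2 s ≤ d ∨ layers false E ≤ d) : (rk E).2 ≤ d + 1 := by
  rcases hd with hd | hd
  · exact (rk_log E).trans (by have := Nat.log_mono_right (b := 2) hs; omega)
  · exact (rk_layers E).2.trans (by have := layers_true_le E; omega)

theorem light_of_read {r : ℕ} {E : Ex} (h : ∀ i, E.occ i ≤ r + 1) : Light r 0 E := by
  intro F _
  have h0 : {i : ℕ | r < F.occ i ∧ F.occ i < E.occ i} = ∅ := by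
    rw [Set.eq_empty_iff_forall_notMem]
    rintro i ⟨h1, h2⟩
    have := h i
    omega
  rw [h0, Set.ncard_empty]

theorem hit_light (j k : ℕ) : ∃ m : ℕ, ∀ (n : ℕ) (E : Ex), Light j k E →
    (∀ i, E.occ i ≠ 0 → i < n) → E.poly ≠ 0 → Hit n (m * (rk E).2) E := by
  obtain ⟨m, hm⟩ := hit_pruned j k
  refine ⟨m, fun n E hE hn hz => ?_⟩
  rw [poly_ne_zero_iff] at hz
  have h1 := hm n (prune E) (light_prune hE) (pr_prune E)
    (fun i hi => hn i (by have := occ_prune E i; omega)) (rk E).2 (prune E) (Ex.mem_subs_self _)
    (rk_prune E).2 fun h => hz fun x => by rw [← eval_prune]; exact h x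
  exact h1.congr fun x => eval_prune E x

theorem length_le_of_occ {r n : ℕ} {E : Ex} (h : ∀ i, E.occ i ≤ r) (hn : ∀ i, E.occ i ≠ 0 → i < n) :
    E.vlist.length ≤ r * n := by
  have h1 : E.vlist.length = ∑ i ∈ Finset.range n, E.vlist.count i := by
    rw [← List.sum_toFinset_count_eq_length]
    refine Finset.sum_subset (fun i hi => ?_) fun i _ hi => ?_
    · rw [List.mem_toFinset, Ex.mem_vlist] at hi
      exact Finset.mem_range.2 (hn i hi)
    · rw [List.mem_toFinset] at hi
      exact List.count_eq_zero.2 hi
  rw [h1]
  refine (Finset.sum_le_card_nsmul _ _ r fun i _ => ?_).trans ?_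
  · rw [Ex.count_vlist]
    exact h i
  · rw [Finset.card_range, smul_eq_mul, mul_comm]

/-- **Explicit hitting sets for arithmetic expressions in which every variable occurs a bounded
number of times.**
(1) For every `r` there is a `C` such that for all `n` the points of
`hittingSet n (C (log₂ n + 1)) (r n (n + 1))` are a hitting set for the expressions in the variables
`x₀, …, x_{n-1}` in which every variable occurs at most `r` times.
(2) For all `j` and `k` there is a `C` such that the points of
`hittingSet n (C (d + 1)) (s (n + 1))` are a hitting set for the expressions `E` with `Light j k E`,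
with at most `s` occurrences of the variables `x₀, …, x_{n-1}` and `log₂ s ≤ d` or
`layers false E ≤ d`.
(3) Size of these sets. (4) Expressions in which every variable occurs at most `r + 1` times satisfy
`Light r 0`. -/
theorem result :
    (∀ r : ℕ, ∃ C : ℕ, ∀ (n : ℕ) (E : Ex), (∀ i, E.occ i ≤ r) → (∀ i, E.occ i ≠ 0 → i < n) →
      E.poly ≠ 0 → ∃ p ∈ hittingSet n (C * (Nat.log 2 n + 1)) (r * n * (n + 1)),
        MvPolynomial.eval (fun i => ((p i : ℤ) : ℚ)) E.poly ≠ 0) ∧
    (∀ j k : ℕ, ∃ C : ℕ, ∀ (n s d : ℕ) (E : Ex), Light j k E → (∀ i, E.occ i ≠ 0 → i < n) →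
      E.vlist.length ≤ s → (Nat.log 2 s ≤ d ∨ layers false E ≤ d) → E.poly ≠ 0 →
      ∃ p ∈ hittingSet n (C * (d + 1)) (s * (n + 1)),
        MvPolynomial.eval (fun i => ((p i : ℤ) : ℚ)) E.poly ≠ 0) ∧
    (∀ n r D : ℕ, (hittingSet n r D).card ≤ (D + 1) ^ (2 * r)) ∧
    (∀ (r : ℕ) (E : Ex), (∀ i, E.occ i ≤ r + 1) → Light r 0 E) := by
  refine ⟨fun r => ?_, fun j k => ?_, card_hittingSet, fun r E => light_of_read⟩
  · obtain ⟨m, hm⟩ := hit_light r 0
    refine ⟨m * (Nat.log 2 (r + 1) + 2), fun n E hr hn hz => ?_⟩
    have hlen := length_le_of_occ hr hn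
    have h1 := hm n E (light_of_read fun i => (hr i).trans (Nat.le_succ r)) hn hz
    refine hits (h1.mono ?_) hlen
    have h2 : (rk E).2 ≤ Nat.log 2 (r * n) + 1 :=
      (rk_log E).trans (Nat.succ_le_succ (Nat.log_mono_right hlen))
    have h3 : Nat.log 2 (r * n) ≤ Nat.log 2 (r + 1) + 1 + (Nat.log 2 n) := by
      rcases Nat.eq_zero_or_pos n with rfl | hn0
      · simp
      · rcases Nat.eq_zero_or_pos r with rfl | hr0
        · simp
        · have h4 : r * n < 2 ^ (Nat.log 2 (r + 1) + 1 + (Nat.log 2 n + 1)) := by
            rw [pow_add]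
            have h5 : r < 2 ^ (Nat.log 2 (r + 1) + 1) :=
              (Nat.lt_succ_self r).trans (Nat.lt_pow_succ_log_self (by norm_num) _)
            have h6 : n < 2 ^ (Nat.log 2 n + 1) := Nat.lt_pow_succ_log_self (by norm_num) _
            exact Nat.mul_lt_mul'' h5 h6
          have h7 := Nat.log_lt_of_lt_pow (by positivity) h4
          omega
    have h8 : (rk E).2 ≤ (Nat.log 2 (r + 1) + 2) * (Nat.log 2 n + 1) := by nlinarith
    calc m * (rk E).2 ≤ m * ((Nat.log 2 (r + 1) + 2) * (Nat.log 2 n + 1)) :=
          Nat.mul_le_mul_left _ h8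
      _ = _ := by ring
  · obtain ⟨m, hm⟩ := hit_light j k
    refine ⟨m, fun n s d E hE hn hs hd hz => ?_⟩
    exact hits ((hm n E hE hn hz).mono (Nat.mul_le_mul_left _ (rk_le_of hs hd))) hs

end Pool.Agent.Results.MP_3c5c20_lc.BlackBoxBoundedRead
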