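import Pool.Agent.J6H25.CR.RI

/-!
# Deterministic identity testing for arithmetic expressions with bounded numbers of occurrences

`Ex` is the type of arithmetic expressions (variables `x₀, x₁, …`, rational constants in binary,
`+`, `-`, `×`), `E.poly` the polynomial defined by `E`, `E.occ i` the number of occurrences of the
variable `x i` in `E`, `E.subs` the list of the subexpressions of `E` (`E` included).

`Light j k E`: for every subexpression `F` of `E` there are at most `k` variables which occur more
than `j` times in `F` and at least once in `E` outside of `F`.

`InPP P` : the language of the codes of the objects with the property `P` is decided by a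
deterministic Turing machine in polynomial time; expressions are coded as strings in reverse Polish
notation.

For every `r` it can be decided in polynomial time whether an arithmetic expression in which every
variable occurs at most `r` times defines a polynomial different from zero. More generally, for all
`j` and `k` this holds for the expressions with `Light j k`, which are recognised in polynomial time.
No multilinearity is assumed.
-/

set_option autoImplicit false

namespace Pool.Agent.Results.MP_3c5c20_lc.BoundedReadIdentityTesting

open Pool.Agent.NPC Pool.Agent.J6H25.PIT Pool.Agent.J6H25.CR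

/-- the test whether every variable occurs at most `r` times -/
def rdb (r : ℕ) (E : Ex) : Bool := E.vlist.all fun i => decide (cnt E.vlist i ≤ r)

theorem rdb_iff {r : ℕ} {E : Ex} : rdb r E = true ↔ ∀ i, E.occ i ≤ r := by
  unfold rdb
  rw [List.all_eq_true]
  simp only [cnt_eq, Ex.count_vlist, decide_eq_true_eq, Ex.mem_vlist]
  refine ⟨fun h i => ?_, fun h i _ => h i⟩
  by_cases hi : E.occ i = 0
  · omega
  · exact h i hi

theorem poly_rdb (r : ℕ) : Poly (fun E : Ex => rdb r E) := by
  unfold rdb
  fun_prop

theorem light_of_read {r : ℕ} {E : Ex} (h : ∀ i, E.occ i ≤ r + 1) : Light r 0 E := by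
  intro F _
  have : {i : ℕ | r < F.occ i ∧ F.occ i < E.occ i} = ∅ := by
    ext i
    have := h i
    simp only [Set.mem_ofPred_eq, Set.mem_empty_iff_false, iff_false]
    omega
  rw [this, Set.ncard_empty]

theorem occ_le_of_parts {W : Set ℕ} {m : ℕ} {F : Ex} (h : Parts W m F) {i : ℕ} (hi : i ∉ W) :
    F.occ i ≤ m := by
  induction h with
  | one h => exact h i hi
  | add h h' ih ih' => simp only [Ex.occ]; omega
  | sub h h' ih ih' => simp only [Ex.occ]; omega

theorem light_of_narrow {M k : ℕ} {E : Ex} (h : Narrow M k E) : Light M k E := by
  intro F hF
  obtain ⟨Z, hZ, m, hm, hP⟩ := h F hF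
  have hsub : {i : ℕ | M < F.occ i ∧ F.occ i < E.occ i} ⊆ (Z : Set ℕ) := by
    intro i hi
    by_contra hc
    have h1 := occ_le_of_parts hP (i := i) (by
      rintro (h1 | h1)
      · exact hc h1
      · have := hi.2
        simp only [Set.mem_ofPred_eq] at h1
        omega)
    have := hi.1
    omega
  refine (Set.ncard_le_ncard hsub (Finset.finite_toSet Z)).trans ?_
  rwa [Set.ncard_coe_finset]

/-- **Identity testing for arithmetic expressions in which every variable occurs a bounded number
of times.**
(1) For every `r`, the arithmetic expressions in which every variable occurs at most `r` times and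
which define a polynomial different from zero (those which define the polynomial zero) can be
recognised in deterministic polynomial time.
(2) For all `j` and `k`, the expressions `E` such that for every subexpression `F` of `E` at most `k`
variables occur more than `j` times in `F` and also outside of `F` can be recognised in
deterministic polynomial time, and among them those which define a polynomial different from zero
(the polynomial zero) as well.
(3) The expressions in which every variable occurs at most `r + 1` times are among those of (2) with
`j = r`, `k = 0`; the expressions with `Narrow M k` are among those with `j = M`. -/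
theorem result :
    (∀ r : ℕ, InPP (fun E : Ex => (∀ i, E.occ i ≤ r) ∧ E.poly ≠ 0) ∧
      InPP (fun E : Ex => (∀ i, E.occ i ≤ r) ∧ E.poly = 0)) ∧
    (∀ j k : ℕ, InPP (fun E : Ex => Light j k E) ∧
      InPP (fun E : Ex => Light j k E ∧ E.poly ≠ 0) ∧
      InPP (fun E : Ex => Light j k E ∧ E.poly = 0)) ∧
    (∀ (r : ℕ) (E : Ex), (∀ i, E.occ i ≤ r + 1) → Light r 0 E) ∧
    (∀ (M k : ℕ) (E : Ex), Narrow M k E → Light M k E) := by
  refine ⟨fun r => ?_, fun j k => ?_, fun r E => light_of_read, fun M k E => light_of_narrow⟩
  · obtain ⟨m, hm⟩ := alg_spec r 0
    have hl : ∀ E : Ex, (∀ i, E.occ i ≤ r) → Light r 0 E := fun E h =>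
      light_of_read fun i => (h i).trans (Nat.le_succ r)
    have hr := poly_rdb r
    constructor
    · refine inPP_of (d := fun E => rdb r E && alg m E) (by fun_prop) fun E => ?_
      rw [Bool.and_eq_true, rdb_iff]
      exact and_congr_right fun h => (hm E (hl E h)).symm
    · refine inPP_of (d := fun E => rdb r E && !alg m E) (by fun_prop) fun E => ?_
      rw [Bool.and_eq_true, rdb_iff, Bool.not_eq_true', ← Bool.not_eq_true]
      exact and_congr_right fun h => by rw [hm E (hl E h), not_not]
  · obtain ⟨m, hm⟩ := alg_spec j k
    refine ⟨?_, ?_, ?_⟩
    · exact inPP_of (d := fun E => lgb j k E) (by fun_prop) fun E => lgb_iff.symm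
    · refine inPP_of (d := fun E => lgb j k E && alg m E) (by fun_prop) fun E => ?_
      rw [Bool.and_eq_true, lgb_iff]
      exact and_congr_right fun h => (hm E h).symm
    · refine inPP_of (d := fun E => lgb j k E && !alg m E) (by fun_prop) fun E => ?_
      rw [Bool.and_eq_true, lgb_iff, Bool.not_eq_true', ← Bool.not_eq_true]
      exact and_congr_right fun h => by rw [hm E h, not_not]

end Pool.Agent.Results.MP_3c5c20_lc.BoundedReadIdentityTesting
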