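import Mathlib
import Pool.Agent.J6H27.DT.Point

/-!
# Subexponential hitting sets for expressions with determinants

`DExpr F n` is the type of the expressions built from constants of the field `F` and the variables
`x_0, …, x_{n-1}` with `+`, `-`, `×` and determinants `det (M_ij)` of any order, whose entries
`M_ij` are again such expressions (nesting is allowed). `DExpr.ev ρ E` is the value of the
expression `E` at `ρ` (in an `F`-algebra), `poly E` the polynomial defined by `E`, `leaves E` the
number of the leaves of `E` labelled by variables (the constants are not counted), and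
`DExpr.OrderLe D E` says that all determinants in `E` have order at most `D`.

For natural numbers `n`, `s` (the bound for the leaves) and two parameters `t`, `q` put
`k = (2 q + 5) t`, `m = 2 ⌊s / t⌋ + 1`, `B = s n k + n + 1`. For every natural number
`r < R = B ^ (k + 2 m + 1)` we have the point `point n s t q r : Fin n → ℕ`, with coordinates
`∑_{l < k} y_l z ^ ((i + 1) l)`, where `y_l` and `z` are digits of `r` in the base `B`: the `y_l`
are the digits at the positions `0, …, k - 1`, and `z` is the digit at the position `k + b`, where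
`b` is the number of the block of `x_i`, that is the number of the digits `≤ i` at the positions
`k + m + 1, …, k + 2 m`.
-/

set_option autoImplicit false

namespace Pool.Agent.Results.MP_3c5c20_lc.DeterminantExpressions

open Pool.Agent.J6H27.DT

universe u

/-- the polynomial defined by an expression -/
noncomputable def poly {F : Type u} [Field F] {n : ℕ} (E : DExpr F n) : MvPolynomial (Fin n) F :=
  E.ev (fun i => MvPolynomial.X i)

/-- the value of an expression at a point with natural coordinates -/
noncomputable def value {F : Type u} [Field F] {n : ℕ} (E : DExpr F n) (p : Fin n → ℕ) : F :=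
  E.ev (fun i => (p i : F))

/-- the number of the leaves labelled by variables -/
def leaves {F : Type u} {n : ℕ} (E : DExpr F n) : ℕ := E.occ (fun _ => True)

/-- the number `k` of the seeds `y_l` -/
def seeds (t q : ℕ) : ℕ := (2 * q + 5) * t

/-- the number `m` of the borders of the blocks -/
def borders (s t : ℕ) : ℕ := 2 * (s / t) + 1

/-- the base `B` -/
def B (n s t q : ℕ) : ℕ := s * (n * seeds t q) + n + 1

/-- the number `R` of the points -/
def R (n s t q : ℕ) : ℕ := B n s t q ^ (seeds t q + 2 * borders s t + 1)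

/-- the points -/
def point (n s t q r : ℕ) (i : Fin n) : ℕ := coord (seeds t q) (borders s t) (B n s t q) r i

/-- `⌊s ^ (1 / 3)⌋ + 1` -/
def cb (s : ℕ) : ℕ := Nat.findGreatest (fun t => t ^ 3 ≤ s) s + 1

theorem lt_cb (s : ℕ) : s < cb s ^ 3 := by
  unfold cb
  by_contra h
  push Not at h
  have h1 : Nat.findGreatest (fun t => t ^ 3 ≤ s) s + 1 ≤ s :=
    le_trans (Nat.le_self_pow (by norm_num) _) h
  have h2 := Nat.le_findGreatest (P := fun t => t ^ 3 ≤ s) h1 h
  omega

theorem cb_le (s : ℕ) : (cb s - 1) ^ 3 ≤ s := by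
  unfold cb
  rw [Nat.add_sub_cancel]
  exact Nat.findGreatest_spec (P := fun t => t ^ 3 ≤ s) (m := 0) (Nat.zero_le _) (by simp)

theorem R_le (n s t q e : ℕ) (hB : s * seeds t q + 1 ≤ (s + 1) ^ 5)
    (he : seeds t q + 2 * borders s t + 1 ≤ e) : R n s t q ≤ ((n + 1) * (s + 1)) ^ (5 * e) := by
  have h1 : B n s t q ≤ ((n + 1) * (s + 1)) ^ 5 := by
    unfold B
    rw [mul_pow]
    calc s * (n * seeds t q) + n + 1 = n * (s * seeds t q + 1) + 1 := by ring
      _ ≤ n * (s * seeds t q + 1) + (s * seeds t q + 1) := by omega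
      _ = (n + 1) * (s * seeds t q + 1) := by ring
      _ ≤ (n + 1) ^ 5 * (s + 1) ^ 5 := Nat.mul_le_mul (Nat.le_self_pow (by norm_num) _) hB
  have h2 : 0 < ((n + 1) * (s + 1)) ^ 5 := by positivity
  unfold R
  calc B n s t q ^ (seeds t q + 2 * borders s t + 1)
      ≤ (((n + 1) * (s + 1)) ^ 5) ^ (seeds t q + 2 * borders s t + 1) := Nat.pow_le_pow_left h1 _
    _ ≤ (((n + 1) * (s + 1)) ^ 5) ^ e := Nat.pow_le_pow_right h2 he
    _ = _ := by rw [← pow_mul]

theorem result :
    -- the points hit every expression with at most `s` leaves labelled by variables, if `t ≤ q`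
    -- or all determinants of the expression have order at most `q`
    (∀ (F : Type u) [Field F] [CharZero F] (n s t q : ℕ) (E : DExpr F n), 0 < t → leaves E ≤ s →
      (t ≤ q ∨ E.OrderLe q) →
      (poly E ≠ 0 ↔ ∃ r < R n s t q, value E (point n s t q r) ≠ 0)) ∧
    -- determinants of any order: the number of the points for `t = q = ⌊s ^ (1 / 3)⌋ + 1`
    (∀ n s : ℕ, R n s (cb s) (cb s) ≤ ((n + 1) * (s + 1)) ^ (70 * cb s ^ 2)) ∧
    -- determinants of order at most `D`: the number of the points for `q = D`,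
    -- `t = ⌊√(s / (D + 1))⌋ + 1`
    (∀ n s D : ℕ, D + 1 ≤ s → R n s (Nat.sqrt (s / (D + 1)) + 1) D ≤
      ((n + 1) * (s + 1)) ^ (120 * Nat.sqrt (s * (D + 1)))) ∧
    -- the size of the coordinates
    (∀ (n s t q r : ℕ) (i : Fin n),
      point n s t q r i ≤ seeds t q * B n s t q ^ (n * seeds t q + 1)) := by
  refine ⟨fun F _ _ n s t q E ht hs hq => ⟨fun hE => ?_, ?_⟩, fun n s => ?_, fun n s D hD => ?_,
    fun n s t q r i => ?_⟩
  · exact exists_index t q s (seeds t q) (borders s t) (B n s t q) ht le_rfl le_rfl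
      (by unfold B; omega) (by unfold B; omega) E hq hs hE
  · rintro ⟨r, _, h⟩ h0
    apply h
    have h1 := DExpr.map_ev (MvPolynomial.aeval (fun i => (point n s t q r i : F)) :
      MvPolynomial (Fin n) F →ₐ[F] F) (fun i => MvPolynomial.X i) E
    have h2 : E.ev (fun i => (MvPolynomial.aeval (fun i => (point n s t q r i : F)) :
        MvPolynomial (Fin n) F →ₐ[F] F) (MvPolynomial.X i)) = value E (point n s t q r) := by
      unfold value
      congr 1
      funext i
      rw [MvPolynomial.aeval_X]
    rw [← h2, ← h1]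
    have h3 : E.ev (fun i => (MvPolynomial.X i : MvPolynomial (Fin n) F)) = 0 := h0
    rw [h3, map_zero]
  · -- any order
    have hc1 : 1 ≤ cb s := Nat.succ_pos _
    have hcs : cb s ≤ s + 1 := Nat.succ_le_succ (Nat.findGreatest_le _)
    have hlt := lt_cb s
    have hle := cb_le s
    generalize cb s = c at hc1 hcs hlt hle
    have hdiv : s / c ≤ c ^ 2 := by
      have h1 : s < c ^ 2 * c := by
        calc s < c ^ 3 := hlt
          _ = c ^ 2 * c := by ring
      exact ((Nat.div_lt_iff_lt_mul hc1).2 h1).le
    have hcc : c ≤ c ^ 2 := Nat.le_self_pow (by norm_num) _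
    have h1 : 1 ≤ c ^ 2 := Nat.one_le_pow _ _ hc1
    have he : seeds c c + 2 * borders s c + 1 ≤ 14 * c ^ 2 := by
      unfold seeds borders
      have : (2 * c + 5) * c = 2 * c ^ 2 + 5 * c := by ring
      omega
    have hB : s * seeds c c + 1 ≤ (s + 1) ^ 5 := by
      unfold seeds
      rcases Nat.eq_zero_or_pos s with rfl | hs
      · simp
      have h2 : (2 * c + 5) * c ≤ (2 * (s + 1) + 5) * (s + 1) :=
        Nat.mul_le_mul (by omega) hcs
      calc s * ((2 * c + 5) * c) + 1 ≤ s * ((2 * (s + 1) + 5) * (s + 1)) + 1 := by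
            have := Nat.mul_le_mul_left s h2
            omega
        _ = 2 * s ^ 3 + 9 * s ^ 2 + 7 * s + 1 := by ring
        _ ≤ (s + 1) ^ 5 := by
          have h3 : (s + 1) ^ 5 = s ^ 5 + 5 * s ^ 4 + 10 * s ^ 3 + 10 * s ^ 2 + 5 * s + 1 := by ring
          have h4 : s ≤ s ^ 3 := Nat.le_self_pow (by norm_num) _
          omega
    have := R_le n s c c (14 * c ^ 2) hB he
    calc R n s c c ≤ _ := this
      _ = _ := by congr 1; ring
  · -- bounded order
    have hD0 : 0 < D + 1 := Nat.succ_pos _
    set a := Nat.sqrt (s / (D + 1)) with ha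
    set b := Nat.sqrt (s * (D + 1)) with hb
    have h1 : s / (D + 1) < (a + 1) * (a + 1) := Nat.lt_succ_sqrt _
    have h2 : a * a ≤ s / (D + 1) := Nat.sqrt_le _
    have h3 : s < (a + 1) * (D + 1) * (a + 1) := by
      rw [Nat.div_lt_iff_lt_mul hD0] at h1
      calc s < (a + 1) * (a + 1) * (D + 1) := h1
        _ = _ := by ring
    have h4 : s / (a + 1) ≤ (a + 1) * (D + 1) :=
      ((Nat.div_lt_iff_lt_mul (Nat.succ_pos _)).2 h3).le
    have h5 : (D + 1) * a ≤ b := by
      rw [hb, Nat.le_sqrt]
      have h6 : a * a * (D + 1) ≤ s := by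
        rw [Nat.le_div_iff_mul_le hD0] at h2
        exact h2
      calc (D + 1) * a * ((D + 1) * a) = (a * a * (D + 1)) * (D + 1) := by ring
        _ ≤ s * (D + 1) := Nat.mul_le_mul_right _ h6
    have h6 : D + 1 ≤ b := by
      rw [hb, Nat.le_sqrt]
      exact Nat.mul_le_mul_right _ hD
    have h7 : (a + 1) * (D + 1) ≤ 2 * b := by
      have : (a + 1) * (D + 1) = (D + 1) * a + (D + 1) := by ring
      omega
    have h8 : seeds (a + 1) D ≤ 5 * ((a + 1) * (D + 1)) := by
      unfold seeds
      have h9 : (2 * D + 5) * (a + 1) ≤ (5 * (D + 1)) * (a + 1) := Nat.mul_le_mul_right _ (by omega)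
      calc (2 * D + 5) * (a + 1) ≤ (5 * (D + 1)) * (a + 1) := h9
        _ = _ := by ring
    have he : seeds (a + 1) D + 2 * borders s (a + 1) + 1 ≤ 24 * b := by
      unfold borders
      omega
    have hs1 : 1 ≤ s := by omega
    have hbs : b ≤ s := by
      rw [hb]
      calc Nat.sqrt (s * (D + 1)) ≤ Nat.sqrt (s * s) := Nat.sqrt_le_sqrt (Nat.mul_le_mul_left _ hD)
        _ = s := Nat.sqrt_eq s
    have hB : s * seeds (a + 1) D + 1 ≤ (s + 1) ^ 5 := by
      have h9 : s * seeds (a + 1) D ≤ s * (10 * s) := Nat.mul_le_mul_left _ (by omega)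
      have h10 : (s + 1) ^ 5 = s ^ 5 + 5 * s ^ 4 + 10 * s ^ 3 + 10 * s ^ 2 + 5 * s + 1 := by ring
      have h11 : s * (10 * s) = 10 * s ^ 2 := by ring
      omega
    have := R_le n s (a + 1) D (24 * b) hB he
    calc R n s (a + 1) D ≤ _ := this
      _ = _ := by congr 1; ring
  · have hB : 0 < B n s t q := by unfold B; omega
    unfold point
    refine (coord_le _ _ _ _ _ hB).trans (Nat.mul_le_mul_left _ ?_)
    rw [← pow_succ']
    apply Nat.pow_le_pow_right hB
    have : ((i : ℕ) + 1) * seeds t q ≤ n * seeds t q := Nat.mul_le_mul_right _ i.2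
    omega

end Pool.Agent.Results.MP_3c5c20_lc.DeterminantExpressions
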