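import Mathlib
import Pool.Agent.J6H7.PIT.Final

/-!
# Identity testing for arithmetic expressions in deterministic time `2 ^ O(√N log N)`

## The test on Turing machines

`Ex` (in `Pool.Agent.J6H25.PIT.Defs`) is the type of the arithmetic expressions built from rational
constants and variables `x₀, x₁, …` with `+`, `-`, `×`; `Ex.poly` is the polynomial defined by an
expression. `lang P` (in `Pool.Agent.NPC.Defs`) is the language of the codes of the objects with the
property `P`: an expression is coded as a string in reverse Polish notation, with all numbers in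
binary. `InSqrtExpTime L` (in `Pool.Agent.J6H7.PIT.Machine`): the language `L` is decided by a
deterministic Turing machine in time `2 ^ (C (⌊√N⌋ + 1) (⌊log₂ N⌋ + 1))`.

## Explicit hitting sets of size `((n + 1) (s + 1)) ^ O(√s)`

`Expr F n` is the type of the arithmetic expressions built from constants of the field `F` and the
variables `x_0, …, x_{n-1}` with `+`, `-`, `×`; `Expr.ev ρ E` is the value of the expression `E`
at `ρ` (in an `F`-algebra), `poly E` the polynomial defined by `E`, `leaves E` the number of the
leaves of `E` labelled by variables.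

For `n` variables and at most `s` leaves put `t = ⌊√s⌋ + 1`, `B = 5 s n t + n + 1`. For every
natural number `r < B ^ (9 t)` we have the point `point n s r : Fin n → ℕ`, with coordinates
`∑_{l < 5 t} y_l z ^ ((i + 1) l)`, where `y_l` and `z` are digits of `r` in the base `B`
(`z` depends on the block of the variable `x_i`, and the borders of the `2 t` blocks are also
given by digits of `r`).
-/

set_option autoImplicit false

namespace Pool.Agent.Results.MP_3c5c20_lc.SubexponentialIdentityTesting

open Pool.Agent.J6H7.PIT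

universe u

/-- the polynomial defined by an expression -/
noncomputable def poly {F : Type u} [Field F] {n : ℕ} (E : Expr F n) : MvPolynomial (Fin n) F :=
  E.ev (fun i => MvPolynomial.X i)

/-- the value of an expression at a point with natural coordinates -/
def value {F : Type u} [Field F] {n : ℕ} (E : Expr F n) (p : Fin n → ℕ) : F :=
  E.ev (fun i => (p i : F))

/-- the number of the leaves labelled by variables -/
def leaves {F : Type u} {n : ℕ} (E : Expr F n) : ℕ := E.occ (fun _ => True)

/-- the base -/
def B (n s : ℕ) : ℕ := 5 * s * n * (Nat.sqrt s + 1) + n + 1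

/-- the number of the points -/
def R (n s : ℕ) : ℕ := B n s ^ (9 * (Nat.sqrt s + 1))

/-- the points -/
def point (n s r : ℕ) (i : Fin n) : ℕ := coord (Nat.sqrt s + 1) (B n s) r i

theorem B_eq (n s : ℕ) : B n s = base n (Nat.sqrt s + 1) s := by
  unfold B base
  ring

theorem result :
    -- the arithmetic expressions which define a nonzero polynomial are recognised by a
    -- deterministic Turing machine in time `2 ^ O(√N log N)`
    InSqrtExpTime (Pool.Agent.NPC.lang fun E : Pool.Agent.J6H25.PIT.Ex => E.poly ≠ 0) ∧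
    -- the points hit every expression with at most `s` leaves labelled by variables
    (∀ (F : Type u) [Field F] [CharZero F] (n s : ℕ) (E : Expr F n), leaves E ≤ s →
      (poly E ≠ 0 ↔ ∃ r < R n s, value E (point n s r) ≠ 0)) ∧
    -- the number of the points
    (∀ n s : ℕ, R n s ≤ ((n + 1) * (s + 1)) ^ (36 * (Nat.sqrt s + 1))) ∧
    -- the size of the coordinates
    (∀ (n s r : ℕ) (i : Fin n), point n s r i ≤ B n s ^ (10 * n * (Nat.sqrt s + 1) + 2)) := by
  refine ⟨nonzero_sqrt, fun F _ _ n s E hs => ⟨fun hE => ?_, ?_⟩, fun n s => ?_, fun n s r i => ?_⟩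
  · obtain ⟨r, hr, h⟩ := exists_index (Nat.sqrt s + 1) s (Nat.succ_pos _) (Nat.lt_succ_sqrt s) E hs
      hE
    rw [← B_eq] at hr h
    exact ⟨r, hr, h⟩
  · rintro ⟨r, _, h⟩ h0
    apply h
    have h1 := Expr.map_ev (MvPolynomial.aeval (fun i => (point n s r i : F)) :
      MvPolynomial (Fin n) F →ₐ[F] F) (fun i => MvPolynomial.X i) E
    have h2 : E.ev (fun i => (MvPolynomial.aeval (fun i => (point n s r i : F)) :
        MvPolynomial (Fin n) F →ₐ[F] F) (MvPolynomial.X i)) = value E (point n s r) := by
      unfold value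
      congr 1
      funext i
      rw [MvPolynomial.aeval_X]
    rw [← h2, ← h1]
    have h3 : E.ev (fun i => (MvPolynomial.X i : MvPolynomial (Fin n) F)) = 0 := h0
    rw [h3, map_zero]
  · unfold R
    rw [B_eq]
    calc base n (Nat.sqrt s + 1) s ^ (9 * (Nat.sqrt s + 1))
        ≤ (((n + 1) * (s + 1)) ^ 4) ^ (9 * (Nat.sqrt s + 1)) :=
          Nat.pow_le_pow_left (base_le n s) _
      _ = _ := by rw [← pow_mul]; congr 1; ring
  · have hB : 0 < B n s := by unfold B; omega
    unfold point
    refine (coord_le _ _ _ _ hB).trans ?_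
    have hn : (i : ℕ) + 1 ≤ n := i.2
    have h5 : 5 * (Nat.sqrt s + 1) ≤ B n s ^ 3 := by
      rcases Nat.eq_zero_or_pos s with rfl | hs
      · have h2 : 2 ≤ B n 0 := by unfold B; omega
        calc 5 * (Nat.sqrt 0 + 1) = 5 := by simp
          _ ≤ 2 ^ 3 := by norm_num
          _ ≤ B n 0 ^ 3 := Nat.pow_le_pow_left h2 3
      · refine le_trans ?_ (Nat.le_self_pow (by norm_num) _)
        unfold B
        have h1 : 1 * 1 ≤ s * n := Nat.mul_le_mul hs (by omega)
        have h2 : 5 * (Nat.sqrt s + 1) * (1 * 1) ≤ 5 * (Nat.sqrt s + 1) * (s * n) :=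
          Nat.mul_le_mul_left _ h1
        have h3 : 5 * (Nat.sqrt s + 1) * (s * n) = 5 * s * n * (Nat.sqrt s + 1) := by ring
        omega
    have h6 : ((i : ℕ) + 1) * (5 * (Nat.sqrt s + 1)) ≤ n * (5 * (Nat.sqrt s + 1)) :=
      Nat.mul_le_mul_right _ hn
    have h7 : 5 ≤ n * (5 * (Nat.sqrt s + 1)) := by
      calc 5 = 1 * (5 * (0 + 1)) := by norm_num
        _ ≤ n * (5 * (Nat.sqrt s + 1)) :=
          Nat.mul_le_mul (by omega) (Nat.mul_le_mul_left _ (Nat.add_le_add_right (Nat.zero_le _) _))
    calc 5 * (Nat.sqrt s + 1) * (B n s * B n s ^ (((i : ℕ) + 1) * (5 * (Nat.sqrt s + 1))))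
        ≤ B n s ^ 3 * (B n s * B n s ^ (n * (5 * (Nat.sqrt s + 1)))) :=
          Nat.mul_le_mul h5 (Nat.mul_le_mul_left _ (Nat.pow_le_pow_right hB h6))
      _ = B n s ^ (n * (5 * (Nat.sqrt s + 1)) + 4) := by ring
      _ ≤ B n s ^ (10 * n * (Nat.sqrt s + 1) + 2) := by
          apply Nat.pow_le_pow_right hB
          have h8 : 10 * n * (Nat.sqrt s + 1) = n * (5 * (Nat.sqrt s + 1)) +
            n * (5 * (Nat.sqrt s + 1)) := by ring
          omega

end Pool.Agent.Results.MP_3c5c20_lc.SubexponentialIdentityTesting
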